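import Pool.Agent.Helper38.RSP.Goals3
import Pool.Agent.Helper58.RS.EUL

/-!
# Project RSP, packet SP-EUL: the Euler product over the prime ideals (complex characters)
-/

set_option autoImplicit false

namespace Pool.Agent.Helper58.RSP

open NumberField Module IsDedekindDomain Filter Topology
open _root_.Pool.Agent.Helper38.RSP
open _root_.Pool.Agent.Helper58.RS (IS IS_empty decomp exists_IS two_le_norm norm_le_half
  mul_rpow_norm summable_ideals)

section euler

variable {F : Type} [Field F] [NumberField F]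

theorem euler_fin (f : Ideal (𝓞 F) → ℂ) (h1 : f ⊤ = 1) (hm : ∀ I J, f (I * J) = f I * f J)
    (hv : ∀ v : HeightOneSpectrum (𝓞 F), ‖f v.asIdeal‖ < 1)
    (S : Finset (HeightOneSpectrum (𝓞 F))) :
    Summable (fun J : IS S => ‖f J‖) ∧
      HasSum (fun J : IS S => f J) (∏ v ∈ S, (1 - f v.asIdeal)⁻¹) := by
  classical
  induction S using Finset.induction_on with
  | empty =>
    have hU : Unique (IS (∅ : Finset (HeightOneSpectrum (𝓞 F)))) := by
      rw [IS_empty]
      infer_instance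
    have hdef : ∀ J : IS (∅ : Finset (HeightOneSpectrum (𝓞 F))), (J : Ideal (𝓞 F)) = ⊤ := by
      intro J
      exact (IS_empty (F := F)).subset J.2
    refine ⟨Summable.of_finite, ?_⟩
    have h2 : (fun J : IS (∅ : Finset (HeightOneSpectrum (𝓞 F))) => f J) = fun _ => (1 : ℂ) := by
      funext J
      rw [hdef J, h1]
    rw [h2, Finset.prod_empty]
    have h3 := hasSum_unique (fun _ : IS (∅ : Finset (HeightOneSpectrum (𝓞 F))) => (1 : ℂ))
    exact h3
  | insert v S hvS ih =>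
    obtain ⟨e, he⟩ := decomp S v hvS
    obtain ⟨ih1, ih2⟩ := ih
    have hpow : ∀ (n : ℕ) , f (v.asIdeal ^ n) = f v.asIdeal ^ n := by
      intro n
      induction n with
      | zero => rw [pow_zero, pow_zero, Ideal.one_eq_top, h1]
      | succ n ihn => rw [pow_succ, hm, ihn, pow_succ]
    have hfe : ∀ x : ℕ × IS S, f (e x) = f v.asIdeal ^ x.1 * f x.2 := by
      rintro ⟨n, J⟩
      rw [he, hm, hpow]
    have hg : Summable (fun n : ℕ => ‖f v.asIdeal ^ n‖) := by
      simpa [norm_pow] using summable_geometric_of_lt_one (norm_nonneg _) (hv v)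
    have hgs : HasSum (fun n : ℕ => f v.asIdeal ^ n) (1 - f v.asIdeal)⁻¹ :=
      hasSum_geometric_of_norm_lt_one (hv v)
    constructor
    · rw [← e.summable_iff]
      have h2 : ((fun J : IS (insert v S) => ‖f J‖) ∘ e) =
          fun x : ℕ × IS S => ‖f v.asIdeal ^ x.1‖ * ‖f x.2‖ := by
        funext x
        rw [Function.comp_apply, hfe, norm_mul]
      rw [h2]
      exact hg.mul_of_nonneg ih1 (fun _ => norm_nonneg _) (fun _ => norm_nonneg _)
    · rw [← e.hasSum_iff, Finset.prod_insert hvS]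
      have h2 : ((fun J : IS (insert v S) => f J) ∘ e) =
          fun x : ℕ × IS S => f v.asIdeal ^ x.1 * f x.2 := by
        funext x
        rw [Function.comp_apply, hfe]
      rw [h2]
      exact hgs.mul ih2 (summable_mul_of_summable_norm hg ih1)

theorem log_bound (a : ℂ) (ha : ‖a‖ ≤ 1 / 2) :
    |Real.log ‖(1 - a)⁻¹‖ - a.re| ≤ 2 * ‖a‖ ^ 2 := by
  have h1 := Complex.norm_log_one_add_sub_self_le (z := -a) (by rw [norm_neg]; linarith)
  rw [norm_neg] at h1
  have h2 : |(Complex.log (1 + -a) - -a).re| ≤ ‖Complex.log (1 + -a) - -a‖ :=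
    Complex.abs_re_le_norm _
  have h3 : (Complex.log (1 + -a) - -a).re = Real.log ‖1 - a‖ + a.re := by
    rw [Complex.sub_re, Complex.log_re, Complex.neg_re, ← sub_eq_add_neg]
    ring
  have h4 : |Real.log ‖(1 - a)⁻¹‖ - a.re| = |Real.log ‖1 - a‖ + a.re| := by
    rw [norm_inv, Real.log_inv, ← abs_neg]
    congr 1
    ring
  rw [h4, ← h3]
  refine h2.trans (h1.trans ?_)
  have h5 : (1 - ‖a‖)⁻¹ ≤ 2 := by
    rw [inv_le_comm₀ (by linarith) (by norm_num)]
    linarith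
  have h6 : 0 ≤ ‖a‖ ^ 2 := by positivity
  nlinarith [mul_le_mul_of_nonneg_left h5 h6]

theorem sp_eul_aux (χ : Ideal (𝓞 F) → ℂ) (hχt : χ ⊤ = 1)
    (hχm : ∀ I J, χ (I * J) = χ I * χ J) (hχ1 : ∀ I, ‖χ I‖ ≤ 1) (s : ℝ) (hs : 1 < s) :
    Lc χ s ≠ 0 ∧
    |Real.log ‖Lc χ s‖ - ∑' v : HeightOneSpectrum (𝓞 F),
      (χ v.asIdeal).re * (Ideal.absNorm v.asIdeal : ℝ) ^ (-s)| ≤
      2 * ∑' v : HeightOneSpectrum (𝓞 F), (Ideal.absNorm v.asIdeal : ℝ) ^ (-(2 : ℝ)) := by
  classical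
  have hI := summable_ideals (F := F) s hs
  have hp := _root_.Pool.Agent.Helper84.RS.summable_norm F s hs
  have hp2 := _root_.Pool.Agent.Helper84.RS.summable_norm F 2 (by norm_num)
  set f : Ideal (𝓞 F) → ℂ := fun J => χ J * (((Ideal.absNorm J : ℝ) ^ (-s) : ℝ) : ℂ) with hf
  have hft : f ⊤ = 1 := by simp [hf, hχt]
  have hfm : ∀ I J, f (I * J) = f I * f J := by
    intro I J
    simp only [hf]
    rw [mul_rpow_norm, hχm, Complex.ofReal_mul]
    ring
  have hfb : ∀ J, ‖f J‖ ≤ (Ideal.absNorm J : ℝ) ^ (-s) := by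
    intro J
    simp only [hf]
    have h0 : (0 : ℝ) ≤ (Ideal.absNorm J : ℝ) ^ (-s) := by positivity
    rw [norm_mul, Complex.norm_real, Real.norm_of_nonneg h0]
    nlinarith [hχ1 J]
  have hfre : ∀ J, (f J).re = (χ J).re * (Ideal.absNorm J : ℝ) ^ (-s) := by
    intro J
    simp only [hf]
    rw [Complex.re_mul_ofReal]
  have hfh : ∀ v : HeightOneSpectrum (𝓞 F), ‖f v.asIdeal‖ ≤ 1 / 2 := fun v =>
    (hfb _).trans (norm_le_half v s hs)
  have hfv : ∀ v : HeightOneSpectrum (𝓞 F), ‖f v.asIdeal‖ < 1 := fun v => by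
    have := hfh v
    linarith
  have hE := fun S => (euler_fin f hft hfm hfv S).2
  -- convergence of the finite products
  have hlim : Tendsto (fun S : Finset (HeightOneSpectrum (𝓞 F)) =>
      ∏ v ∈ S, (1 - f v.asIdeal)⁻¹) atTop (𝓝 (Lc χ s)) := by
    have h1 : ∀ S : Finset (HeightOneSpectrum (𝓞 F)), ∏ v ∈ S, (1 - f v.asIdeal)⁻¹ =
        ∑' J : {J : Ideal (𝓞 F) // J ≠ ⊥}, (IS S).indicator f J.1 := by
      intro S
      have h2 := (hE S).tsum_eq
      rw [← h2]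
      have h3 : ∑' J : IS S, f J = ∑' J : Ideal (𝓞 F), (IS S).indicator f J :=
        tsum_subtype (IS S) f
      have h4 : ∑' J : {J : Ideal (𝓞 F) // J ≠ ⊥}, (IS S).indicator f J.1 =
          ∑' J : Ideal (𝓞 F), ({J : Ideal (𝓞 F) | J ≠ ⊥}).indicator ((IS S).indicator f) J :=
        tsum_subtype {J : Ideal (𝓞 F) | J ≠ ⊥} ((IS S).indicator f)
      rw [h3, h4]
      congr 1
      funext J
      rw [Set.indicator_indicator]
      congr 1
      ext K
      constructor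
      · intro hK
        exact ⟨hK.1, hK⟩
      · intro hK
        exact hK.2
    have h5 : (fun S : Finset (HeightOneSpectrum (𝓞 F)) => ∏ v ∈ S, (1 - f v.asIdeal)⁻¹) =
        fun S => ∑' J : {J : Ideal (𝓞 F) // J ≠ ⊥}, (IS S).indicator f J.1 := funext h1
    rw [h5]
    have h6 : Lc χ s = ∑' J : {J : Ideal (𝓞 F) // J ≠ ⊥}, f J.1 := rfl
    rw [h6]
    apply tendsto_tsum_of_dominated_convergence hI
    · intro J
      obtain ⟨S₀, hS₀⟩ := exists_IS J.1 J.2
      apply tendsto_const_nhds.congr'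
      filter_upwards [eventually_ge_atTop S₀] with S hS
      rw [Set.indicator_of_mem (hS₀ S hS)]
    · refine Eventually.of_forall fun S J => ?_
      by_cases hJ : J.1 ∈ IS S
      · rw [Set.indicator_of_mem hJ]
        exact hfb _
      · rw [Set.indicator_of_notMem hJ, norm_zero]
        positivity
  have hfs : Summable fun v : HeightOneSpectrum (𝓞 F) => (f v.asIdeal).re :=
    Summable.of_norm_bounded hp (fun v => by
      rw [Real.norm_eq_abs]
      exact (Complex.abs_re_le_norm _).trans (hfb _))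
  have hfabs : Summable fun v : HeightOneSpectrum (𝓞 F) => ‖f v.asIdeal‖ :=
    Summable.of_nonneg_of_le (fun _ => norm_nonneg _) (fun v => hfb _) hp
  set C : ℝ := 2 * ∑' v : HeightOneSpectrum (𝓞 F),
    (Ideal.absNorm v.asIdeal : ℝ) ^ (-(2 : ℝ)) with hC
  have hne : ∀ v : HeightOneSpectrum (𝓞 F), (1 - f v.asIdeal)⁻¹ ≠ 0 := fun v => by
    apply inv_ne_zero
    intro h
    have h0 : f v.asIdeal = 1 := (sub_eq_zero.mp h).symm
    have h1 := hfv v
    rw [h0, norm_one] at h1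
    exact lt_irrefl _ h1
  have hpos : ∀ v : HeightOneSpectrum (𝓞 F), 0 < ‖(1 - f v.asIdeal)⁻¹‖ := fun v =>
    norm_pos_iff.mpr (hne v)
  have hlogS : ∀ S : Finset (HeightOneSpectrum (𝓞 F)),
      |Real.log ‖∏ v ∈ S, (1 - f v.asIdeal)⁻¹‖ - ∑ v ∈ S, (f v.asIdeal).re| ≤ C := by
    intro S
    rw [norm_prod, Real.log_prod (fun v _ => (hpos v).ne'), ← Finset.sum_sub_distrib]
    refine (Finset.abs_sum_le_sum_abs _ _).trans ?_
    have h7 : ∀ v ∈ S, |Real.log ‖(1 - f v.asIdeal)⁻¹‖ - (f v.asIdeal).re| ≤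
        2 * (Ideal.absNorm v.asIdeal : ℝ) ^ (-(2 : ℝ)) := by
      intro v _
      refine (log_bound _ (hfh v)).trans ?_
      have h8 : ‖f v.asIdeal‖ ^ 2 ≤ (Ideal.absNorm v.asIdeal : ℝ) ^ (-(2 : ℝ)) := by
        have h9 : ‖f v.asIdeal‖ ≤ (Ideal.absNorm v.asIdeal : ℝ) ^ (-(1 : ℝ)) := by
          refine (hfb _).trans ?_
          have h2 : (2 : ℝ) ≤ (Ideal.absNorm v.asIdeal : ℝ) := by exact_mod_cast two_le_norm v
          exact Real.rpow_le_rpow_of_exponent_le (by linarith) (by linarith)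
        have h10 : (Ideal.absNorm v.asIdeal : ℝ) ^ (-(2 : ℝ)) =
            ((Ideal.absNorm v.asIdeal : ℝ) ^ (-(1 : ℝ))) ^ 2 := by
          rw [← Real.rpow_natCast, ← Real.rpow_mul (by positivity)]
          norm_num
        rw [h10]
        exact pow_le_pow_left₀ (norm_nonneg _) h9 2
      linarith
    refine (Finset.sum_le_sum h7).trans ?_
    rw [← Finset.mul_sum, hC]
    have h11 := hp2.sum_le_tsum S (fun v _ => by positivity)
    linarith
  set B : ℝ := ∑' v : HeightOneSpectrum (𝓞 F), ‖f v.asIdeal‖ with hB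
  have hlow : ∀ S : Finset (HeightOneSpectrum (𝓞 F)),
      Real.exp (-B - C) ≤ ‖∏ v ∈ S, (1 - f v.asIdeal)⁻¹‖ := by
    intro S
    have hP : 0 < ‖∏ v ∈ S, (1 - f v.asIdeal)⁻¹‖ :=
      norm_pos_iff.mpr (Finset.prod_ne_zero_iff.mpr fun v _ => hne v)
    rw [← Real.le_log_iff_exp_le hP]
    have h12 := (abs_le.mp (hlogS S)).1
    have h13 : -B ≤ ∑ v ∈ S, (f v.asIdeal).re := by
      have h14 : ∑ v ∈ S, ‖f v.asIdeal‖ ≤ B := hfabs.sum_le_tsum S (fun v _ => norm_nonneg _)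
      have h15 := Finset.abs_sum_le_sum_abs (fun v : HeightOneSpectrum (𝓞 F) => (f v.asIdeal).re) S
      have h17 : ∑ v ∈ S, |(f v.asIdeal).re| ≤ ∑ v ∈ S, ‖f v.asIdeal‖ :=
        Finset.sum_le_sum fun v _ => Complex.abs_re_le_norm _
      have h16 := neg_abs_le (∑ v ∈ S, (f v.asIdeal).re)
      linarith
    linarith
  have hnl : Tendsto (fun S : Finset (HeightOneSpectrum (𝓞 F)) =>
      ‖∏ v ∈ S, (1 - f v.asIdeal)⁻¹‖) atTop (𝓝 ‖Lc χ s‖) := hlim.norm
  have hLpos : 0 < ‖Lc χ s‖ :=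
    lt_of_lt_of_le (Real.exp_pos _) (ge_of_tendsto hnl (Eventually.of_forall hlow))
  refine ⟨norm_pos_iff.mp hLpos, ?_⟩
  have h17 : Tendsto (fun S : Finset (HeightOneSpectrum (𝓞 F)) =>
      |Real.log ‖∏ v ∈ S, (1 - f v.asIdeal)⁻¹‖ - ∑ v ∈ S, (f v.asIdeal).re|) atTop
      (𝓝 |Real.log ‖Lc χ s‖ - ∑' v : HeightOneSpectrum (𝓞 F), (f v.asIdeal).re|) := by
    apply Tendsto.abs
    exact (hnl.log hLpos.ne').sub hfs.hasSum
  have h18 : ∑' v : HeightOneSpectrum (𝓞 F), (f v.asIdeal).re =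
      ∑' v : HeightOneSpectrum (𝓞 F),
        (χ v.asIdeal).re * (Ideal.absNorm v.asIdeal : ℝ) ^ (-s) :=
    tsum_congr fun v => hfre _
  rw [h18] at h17
  exact le_of_tendsto h17 (Eventually.of_forall hlogS)

end euler

theorem sp_eul : SP_EUL := by
  intro F _ _
  refine ⟨2 * ∑' v : HeightOneSpectrum (𝓞 F), (Ideal.absNorm v.asIdeal : ℝ) ^ (-(2 : ℝ)), ?_⟩
  intro χ h1 h2 h3 s hs
  exact sp_eul_aux χ h1 h2 h3 s hs

end Pool.Agent.Helper58.RSP
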